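import Mathlib
import Pool.Agent.TH409.SH.Tfae

set_option autoImplicit false

/-!
# The Bombieri-Lang-Vojta equivalence and heights of points sparse in an algebraic base

Let `V` be an affine variety over a number field `K`, the zeros in affine `n`-space of finitely many
polynomials `F` with coefficients in `𝓞 K`, and `V'` the closed subset of `V` given by `G`.  The
following are equivalent:

* every entire curve of exponential type in `V` lies in `V'`;
* every nonconstant map from the punctured line to `V` lies in `V'`;
* (heights) for ALL number fields `L ⊇ K`, all `t ∈ L`, `t ≠ 0`, all exponents `m_j ∈ ℤ` and all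
  vectors `v_1, …, v_r` over `L`: if `x = ∑ t ^ (m_j) v_j` is a point of `V` outside `V'` then
  `h(1 : x) ≤ (1 + 8 (4 d) ^ (r + 1)) (d h(1 : v) + log (A (r + 1) ^ d))`, where `h` is the absolute
  logarithmic Weil height, `d` bounds the degrees and `A` the sums of the houses of the
  coefficients of the polynomials in `F`;
* the points as above with `h(1 : v) ≤ B` have bounded height, for each `r` and `B`;
* for each number field `L ⊇ K`, each `r` and `B`, the points as above over `L` with `h(1 : v) ≤ B`
  are finite in number.

Both conditions of the Bombieri-Lang-Vojta conjecture, (i) on entire curves and (ii) on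
`S`-integral points, imply these.  The base `t` is an arbitrary algebraic number, and neither `t`
nor the vectors `v_j` need be integral.
-/

namespace Pool.Agent.Results.MP_e97a4d_nt.HeightEquivalence

open MvPolynomial Pool.Agent.W235.RM Pool.Agent.TH409.SH
open Pool.Agent.H159R3.Exp (ExpCurvesIn FinitelyManyIntegral)
open scoped NumberField

theorem result {K : Type} [Field K] [NumberField K] (σ : K →+* ℂ) {ι κ : Type} [Finite ι] {n : ℕ}
    (F : ι → MvPolynomial (Fin n) (𝓞 K)) (G : κ → MvPolynomial (Fin n) (𝓞 K)) :
    List.TFAE [ExpCurvesIn σ F G, GmCurvesIn σ F G, HeightLinear F G, HeightBounded F G,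
      SparseFiniteAlg F G] ∧
    (EntireCurvesIn σ F G → HeightLinear F G) ∧
    (FinitelyManyIntegral F G → HeightLinear F G) :=
  ⟨tfaeH σ F G, heights_of_entire σ F G, heights_of_integral F G⟩

end Pool.Agent.Results.MP_e97a4d_nt.HeightEquivalence
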