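import Mathlib
import Pool.Agent.TH143.HE.Desc
import Pool.Agent.TH143.LG.Conv

/-!
MP_e97a4d_nt, Q1: the equivalence of the two conditions for affine schemes, for entire curves given
by linear differential equations and sequences of integral points given by linear recurrences.
-/

set_option autoImplicit false

namespace Pool.Agent.Results.MP_e97a4d_nt.HolonomicEquivalence

open MvPolynomial IsDedekindDomain NumberField Pool.Agent.TH143 Pool.Agent.TH143.HE
  Pool.Agent.TH143.LG Filter

variable {F₀ : Type} [Field F₀] [NumberField F₀] {n : ℕ}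

/-- Condition (i): the image of every entire curve in `V` lies in `V'`. Here `V` and `V'` are the
closed subschemes of the affine space over the integers of `F₀` with the ideals `I` and `I'`. -/
def CondI (ε : F₀ →+* ℂ) (I I' : Ideal (MvPolynomial (Fin n) (𝓞 F₀))) : Prop :=
  ∀ f : ℂ → Fin n → ℂ, (∀ j, Differentiable ℂ (fun z => f z j)) →
    (∀ z, IsPt (ε.comp (algebraMap (𝓞 F₀) F₀)) I (f z)) → (∃ z z', f z ≠ f z') →
    ∀ z, IsPt (ε.comp (algebraMap (𝓞 F₀) F₀)) I' (f z)

/-- Condition (i) for D-finite curves: the image of every entire curve in `V`, whose coordinates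
satisfy linear differential equations with polynomial coefficients, lies in `V'`. -/
def CondIHol (ε : F₀ →+* ℂ) (I I' : Ideal (MvPolynomial (Fin n) (𝓞 F₀))) : Prop :=
  ∀ f : ℂ → Fin n → ℂ, (∀ j, Differentiable ℂ (fun z => f z j)) →
    (∀ j, PolODE (fun z => f z j)) →
    (∀ z, IsPt (ε.comp (algebraMap (𝓞 F₀) F₀)) I (f z)) → (∃ z z', f z ≠ f z') →
    ∀ z, IsPt (ε.comp (algebraMap (𝓞 F₀) F₀)) I' (f z)

/-- The points of `V` with values in the `S`-integers of `F` which are not points of `V'`. -/
def OffPts (F : Type) [Field F] [NumberField F] [Algebra F₀ F]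
    (S : Set (HeightOneSpectrum (𝓞 F))) (I I' : Ideal (MvPolynomial (Fin n) (𝓞 F₀))) :
    Set (Fin n → F) :=
  {x | (∀ j, x j ∈ S.integer F) ∧ IsPt (str F₀ F) I x ∧ ¬ IsPt (str F₀ F) I' x}

/-- Condition (ii): the set of `S`-integral points of `V` outside of `V'` is finite for all finite
extensions `F` of `F₀` and all finite sets `S` of places. -/
def CondII (I I' : Ideal (MvPolynomial (Fin n) (𝓞 F₀))) : Prop :=
  ∀ (F : Type) [Field F] [NumberField F] [Algebra F₀ F] (S : Set (HeightOneSpectrum (𝓞 F))),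
    S.Finite → (OffPts F S I I').Finite

/-- Condition (ii) for P-recursive sequences: all P-recursive sequences of `S`-integral points of
`V` outside of `V'` have only finitely many different terms. -/
def CondIIHol (I I' : Ideal (MvPolynomial (Fin n) (𝓞 F₀))) : Prop :=
  ∀ (F : Type) [Field F] [NumberField F] [Algebra F₀ F] (S : Set (HeightOneSpectrum (𝓞 F))),
    S.Finite → ∀ x : ℕ → Fin n → F, (∀ m, x m ∈ OffPts F S I I') → (∀ j, PRec fun m => x m j) →
    (Set.range x).Finite

/-- The stronger form: these sequences are eventually periodic. -/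
def CondIIPer (I I' : Ideal (MvPolynomial (Fin n) (𝓞 F₀))) : Prop :=
  ∀ (F : Type) [Field F] [NumberField F] [Algebra F₀ F] (S : Set (HeightOneSpectrum (𝓞 F))),
    S.Finite → ∀ x : ℕ → Fin n → F, (∀ m, x m ∈ OffPts F S I I') → (∀ j, PRec fun m => x m j) →
    ∃ k m0 : ℕ, 0 < k ∧ ∀ m, m0 ≤ m → x (m + k) = x m

/-- Let `A` be a ring of functions along an orbit on a curve: a finitely generated algebra of
sequences, closed under the shift, in a finitely generated field of sequences of transcendence
degree at most one. All sequences of points of `V(ℂ)` outside of `V'(ℂ)`, whose coordinates satisfy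
monic linear recurrences with coefficients in such a ring, are eventually periodic. -/
def CondRec (ε : F₀ →+* ℂ) (I I' : Ideal (MvPolynomial (Fin n) (𝓞 F₀))) : Prop :=
  ∀ A B : Subalgebra ℂ (ℕ → ℂ), IntRing A B → ∀ x : ℕ → Fin n → ℂ,
    (∀ j, MonRec A fun m => x m j) →
    (∀ᶠ m in atTop, IsPt (ε.comp (algebraMap (𝓞 F₀) F₀)) I (x m)) →
    (∀ᶠ m in atTop, ¬ IsPt (ε.comp (algebraMap (𝓞 F₀) F₀)) I' (x m)) →
    ∃ k m0 : ℕ, 0 < k ∧ ∀ m, m0 ≤ m → x (m + k) = x m

/-- All sequences of points of `V(ℂ)` outside of `V'(ℂ)` with coordinates in such a ring are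
eventually constant. -/
def CondFun (ε : F₀ →+* ℂ) (I I' : Ideal (MvPolynomial (Fin n) (𝓞 F₀))) : Prop :=
  ∀ A B : Subalgebra ℂ (ℕ → ℂ), IntRing A B → ∀ x : ℕ → Fin n → ℂ,
    (∀ j, (fun m => x m j) ∈ A) →
    (∀ᶠ m in atTop, IsPt (ε.comp (algebraMap (𝓞 F₀) F₀)) I (x m)) →
    (∀ᶠ m in atTop, ¬ IsPt (ε.comp (algebraMap (𝓞 F₀) F₀)) I' (x m)) →
    ∃ c : Fin n → ℂ, ∀ᶠ m in atTop, x m = c

/-- Let `F₀` be a number field, embedded in `ℂ` by `ε`, and let `V` and `V'` be the closed subschemes
of the affine `n`-space over the ring of integers of `F₀` with the ideals `I` and `I'`. The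
following are equivalent: condition (i) for D-finite entire curves; condition (ii) for P-recursive
sequences; all P-recursive sequences of `S`-integral points of `V` outside of `V'` are eventually
periodic; the image of every nonconstant morphism `G_m → V` over `ℂ` lies in `V'`; all sequences of
points of `V(ℂ)` outside of `V'(ℂ)` which satisfy monic linear recurrences over rings of functions
along orbits on curves are eventually periodic; those with coordinates in such rings are eventually
constant.

Hence each of the conditions (i) and (ii) implies all of these. -/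
theorem result (ε : F₀ →+* ℂ) (I I' : Ideal (MvPolynomial (Fin n) (𝓞 F₀))) :
    [CondIHol ε I I', CondIIHol I I', CondIIPer I I',
      GmCurvesIn (ε.comp (algebraMap (𝓞 F₀) F₀)) I I', CondRec ε I I', CondFun ε I I'].TFAE ∧
    (CondI ε I I' → CondIIPer I I') ∧ (CondII I I' → CondIHol ε I I') := by
  classical
  have h14 : CondIHol ε I I' → GmCurvesIn (ε.comp (algebraMap (𝓞 F₀) F₀)) I I' := gm_of_entire
  have h41 : GmCurvesIn (ε.comp (algebraMap (𝓞 F₀) F₀)) I I' → CondIHol ε I I' := entire_of_gm
  have h43 : GmCurvesIn (ε.comp (algebraMap (𝓞 F₀) F₀)) I I' → CondIIPer I I' := by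
    intro h F _ _ _ S hS x hx hrec
    let _ : Algebra F₀ ℂ := ε.toAlgebra
    have halg : Algebra.IsAlgebraic F₀ F := Algebra.IsAlgebraic.tower_top (K := ℚ) F₀
    let e : F →ₐ[F₀] ℂ := IsAlgClosed.lift
    have he : (e : F →+* ℂ).comp (str F₀ F) = ε.comp (algebraMap (𝓞 F₀) F₀) := by
      ext r
      exact e.commutes _
    have hpt : ∀ (J : Ideal (MvPolynomial (Fin n) (𝓞 F₀))) (y : Fin n → F),
        IsPt (ε.comp (algebraMap (𝓞 F₀) F₀)) J (fun j => e (y j)) ↔ IsPt (str F₀ F) J y := by
      intro J y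
      rw [← he]
      exact isPt_map (str F₀ F) (e : F →+* ℂ) (e : F →+* ℂ).injective J y
    refine periodic (e : F →+* ℂ) hS h.gmIn (fun m j => (hx m).1 j) hrec (fun m => ?_)
      (fun m => ?_)
    · exact (isPt_iff _ I _).1 ((hpt I (x m)).2 (hx m).2.1)
    · have h1 : ¬ IsPt (ε.comp (algebraMap (𝓞 F₀) F₀)) I' (fun j => e (x m j)) := by
        rw [hpt]
        exact (hx m).2.2
      rw [isPt_iff] at h1
      push Not at h1
      exact h1
  have h32 : CondIIPer I I' → CondIIHol I I' := by
    intro h F _ _ _ S hS x hx hrec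
    obtain ⟨k, m0, hk, hper⟩ := h F S hS x hx hrec
    refine ((Set.finite_lt_nat (m0 + k)).image x).subset ?_
    rintro _ ⟨m, rfl⟩
    induction m using Nat.strong_induction_on with
    | _ m ih =>
      rcases Nat.lt_or_ge m (m0 + k) with h1 | h1
      · exact ⟨m, h1, rfl⟩
      · have h2 := hper (m - k) (by omega)
        rw [Nat.sub_add_cancel (by omega)] at h2
        rw [h2]
        exact ih (m - k) (by omega)
  have h24 : CondIIHol I I' → GmCurvesIn (ε.comp (algebraMap (𝓞 F₀) F₀)) I I' := by
    intro h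
    rw [gmCurvesIn_iff]
    intro l p hp
    let _ : Algebra F₀ ℂ := ε.toAlgebra
    obtain ⟨L, _, _, _, p', hp'⟩ := Cur.spec (k := F₀) (E := ℂ) (algebraMap (𝓞 F₀) F₀) hp
    have hchar : CharZero L := charZero_of_injective_algebraMap (algebraMap F₀ L).injective
    have hfin : FiniteDimensional ℚ L := FiniteDimensional.trans ℚ F₀ L
    have hnf : NumberField L := ⟨⟩
    obtain ⟨S, x, hS, h1, h2, h3, h4, h5⟩ := exists_seq (str F₀ L) hp'
    exact h5 (h L S hS x (fun m => ⟨fun j => h1 m j, h2 m, h3 m⟩) h4)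
  have h45 : GmCurvesIn (ε.comp (algebraMap (𝓞 F₀) F₀)) I I' → CondRec ε I I' :=
    fun h A B hAB x hx hX hZ => main_aff h hAB hx hX hZ
  have h56 : CondRec ε I I' → CondFun ε I I' := by
    intro h A B hAB x hx hX hZ
    obtain ⟨k, m0, hk, hper⟩ := h A B hAB x (fun j => monRec_of_mem (hx j)) hX hZ
    refine ⟨x m0, ?_⟩
    have h1 : ∀ᶠ m in atTop, ∀ j, x m j = x m0 j := by
      rw [eventually_all]
      intro j
      exact const_of_per hAB.field (hAB.le (hx j)) hk (fun m hm => congrFun (hper m hm) j)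
    filter_upwards [h1] with m hm
    exact funext hm
  have h64 : CondFun ε I I' → GmCurvesIn (ε.comp (algebraMap (𝓞 F₀) F₀)) I I' := by
    intro h
    refine gm_of_seq fun A B hAB x hx hX hZ => ?_
    obtain ⟨c, hc⟩ := h A B hAB x hx hX hZ
    obtain ⟨m0, hm0⟩ := eventually_atTop.1 hc
    exact ⟨1, m0, one_pos, fun m hm => by rw [hm0 m hm, hm0 (m + 1) (by omega)]⟩
  refine ⟨?_, fun h => h43 (h14 fun f hf _ h1 h2 => h f hf h1 h2), fun h => h41 (h24 ?_)⟩
  · tfae_have 1 → 4 := h14
    tfae_have 4 → 5 := h45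
    tfae_have 5 → 6 := h56
    tfae_have 6 → 4 := h64
    tfae_have 4 → 1 := h41
    tfae_have 4 → 3 := h43
    tfae_have 3 → 2 := h32
    tfae_have 2 → 4 := h24
    tfae_finish
  · intro F _ _ _ S hS x hx _
    refine (h F S hS).subset ?_
    rintro _ ⟨m, rfl⟩
    exact hx m

end Pool.Agent.Results.MP_e97a4d_nt.HolonomicEquivalence
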