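import Mathlib
import Pool.Agent.TH600.LC.Aff

/-!
MP_e97a4d_nt, Q1: the equivalence of the two conditions for affine schemes, for entire curves with
coordinates in the ring generated by the entire functions with Hadamard gaps and for polynomial
sequences of integral points.
-/

set_option autoImplicit false

namespace Pool.Agent.Results.MP_e97a4d_nt.LacunaryEquivalence

open MvPolynomial IsDedekindDomain NumberField Pool.Agent.TH143 Pool.Agent.TH143.HE
  Pool.Agent.TH600.LC

variable {F₀ : Type} [Field F₀] [NumberField F₀] {n : ℕ}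

/-- Condition (i) for the curves generated by gap functions: the image of every nonconstant entire
curve in `V`, whose coordinates are in the ring generated by the entire functions with Hadamard
gaps at some point, lies in `V'`. Here `V` and `V'` are the closed subschemes of the affine space
over the integers of `F₀` with the ideals `I` and `I'`. -/
def CondIGap (ε : F₀ →+* ℂ) (I I' : Ideal (MvPolynomial (Fin n) (𝓞 F₀))) : Prop :=
  AffGapCurvesIn (ε.comp (algebraMap (𝓞 F₀) F₀)) I I'

/-- The points of `V` with values in the `S`-integers of `F` which are not points of `V'`. -/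
def OffPts (F : Type) [Field F] [NumberField F] [Algebra F₀ F]
    (S : Set (HeightOneSpectrum (𝓞 F))) (I I' : Ideal (MvPolynomial (Fin n) (𝓞 F₀))) :
    Set (Fin n → F) :=
  {x | (∀ j, x j ∈ S.integer F) ∧ IsPt (str F₀ F) I x ∧ ¬ IsPt (str F₀ F) I' x}

/-- Condition (ii): the set of `S`-integral points of `V` outside of `V'` is finite for all finite
extensions `F` of `F₀` and all finite sets `S` of places. -/
def CondII (I I' : Ideal (MvPolynomial (Fin n) (𝓞 F₀))) : Prop :=
  ∀ (F : Type) [Field F] [NumberField F] [Algebra F₀ F] (S : Set (HeightOneSpectrum (𝓞 F))),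
    S.Finite → (OffPts F S I I').Finite

/-- Condition (ii) for polynomial sequences: all sequences of `S`-integral points of `V` outside of
`V'`, whose coordinates are polynomials in the index, have only finitely many different terms. -/
def CondIIPoly (I I' : Ideal (MvPolynomial (Fin n) (𝓞 F₀))) : Prop :=
  ∀ (F : Type) [Field F] [NumberField F] [Algebra F₀ F] (S : Set (HeightOneSpectrum (𝓞 F))),
    S.Finite → ∀ x : ℕ → Fin n → F, (∀ m, x m ∈ OffPts F S I I') →
    (∀ j, PolySeq fun m => x m j) → (Set.range x).Finite

/-- Let `F₀` be a number field, embedded in `ℂ` by `ε`, and let `V` and `V'` be the closed subschemes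
of the affine `n`-space over the ring of integers of `F₀` with the ideals `I` and `I'`. The
following are equivalent: condition (i) for entire curves with coordinates in the ring generated by
the entire functions with Hadamard gaps; condition (ii) for polynomial sequences; the image of every
nonconstant morphism from the affine line to `V` over `ℂ` lies in `V'`.

Hence condition (ii) implies condition (i) for entire curves with coordinates in this ring. -/
theorem result (ε : F₀ →+* ℂ) (I I' : Ideal (MvPolynomial (Fin n) (𝓞 F₀))) :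
    [CondIGap ε I I', CondIIPoly I I',
      A1CurvesIn (ε.comp (algebraMap (𝓞 F₀) F₀)) I I'].TFAE ∧
    (CondII I I' → CondIGap ε I I') := by
  classical
  have h13 : CondIGap ε I I' → A1CurvesIn (ε.comp (algebraMap (𝓞 F₀) F₀)) I I' := a1_of_affGap
  have h31 : A1CurvesIn (ε.comp (algebraMap (𝓞 F₀) F₀)) I I' → CondIGap ε I I' := affGap_of_a1
  have h32 : A1CurvesIn (ε.comp (algebraMap (𝓞 F₀) F₀)) I I' → CondIIPoly I I' := by
    intro h F _ _ _ S hS x hx hpoly
    let _ : Algebra F₀ ℂ := ε.toAlgebra
    have halg : Algebra.IsAlgebraic F₀ F := Algebra.IsAlgebraic.tower_top (K := ℚ) F₀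
    let e : F →ₐ[F₀] ℂ := IsAlgClosed.lift
    have he : (e : F →+* ℂ).comp (str F₀ F) = ε.comp (algebraMap (𝓞 F₀) F₀) := by
      ext r
      exact e.commutes _
    have hpt : ∀ (J : Ideal (MvPolynomial (Fin n) (𝓞 F₀))) (y : Fin n → F),
        IsPt (ε.comp (algebraMap (𝓞 F₀) F₀)) J (fun j => e (y j)) ↔ IsPt (str F₀ F) J y := by
      intro J y
      rw [← he]
      exact isPt_map (str F₀ F) (e : F →+* ℂ) (e : F →+* ℂ).injective J y
    choose p hp using hpoly
    -- the polynomial curve over `ℂ`
    have hev : ∀ (j : Fin n) (m : ℕ), ((p j).map (e : F →+* ℂ)).eval (m : ℂ) = e (x m j) := by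
      intro j m
      have h0 : x m j = (p j).eval (m : F) := hp j m
      rw [h0, Polynomial.eval_map, ← map_natCast (e : F →+* ℂ) m, Polynomial.eval₂_at_apply]
      rfl
    have hcurve : ∀ u, IsPt (ε.comp (algebraMap (𝓞 F₀) F₀)) I
        (fun j => ((p j).map (e : F →+* ℂ)).eval u) := by
      intro u G hG
      have h1 : ∀ v : ℂ, (eval₂ (Polynomial.C.comp (ε.comp (algebraMap (𝓞 F₀) F₀)))
          (fun j => (p j).map (e : F →+* ℂ)) G).eval v =
          eval₂ (ε.comp (algebraMap (𝓞 F₀) F₀))
            (fun j => ((p j).map (e : F →+* ℂ)).eval v) G := by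
        intro v
        rw [← Polynomial.coe_evalRingHom, eval₂_comp_left]
        congr 1
        ext r
        simp
      have h2 : eval₂ (Polynomial.C.comp (ε.comp (algebraMap (𝓞 F₀) F₀)))
          (fun j => (p j).map (e : F →+* ℂ)) G = 0 := by
        apply Polynomial.eq_zero_of_infinite_isRoot
        refine Set.Infinite.mono (s := Set.range fun m : ℕ => (m : ℂ)) ?_
          (Set.infinite_range_of_injective Nat.cast_injective)
        rintro _ ⟨m, rfl⟩
        change Polynomial.eval _ _ = 0
        rw [h1]
        have h3 : (fun j => ((p j).map (e : F →+* ℂ)).eval (m : ℂ)) = fun j => e (x m j) :=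
          funext fun j => hev j m
        rw [h3]
        exact (hpt I (x m)).2 (hx m).2.1 G hG
      rw [← h1, h2, Polynomial.eval_zero]
    by_cases hnc : ∃ u v j, ((p j).map (e : F →+* ℂ)).eval u ≠ ((p j).map (e : F →+* ℂ)).eval v
    · exfalso
      have h1 := h _ hcurve hnc ((0 : ℕ) : ℂ)
      have h3 : (fun j => ((p j).map (e : F →+* ℂ)).eval ((0 : ℕ) : ℂ)) = fun j => e (x 0 j) :=
        funext fun j => hev j 0
      rw [h3, hpt] at h1
      exact (hx 0).2.2 h1
    · push Not at hnc
      refine (Set.finite_singleton (x 0)).subset ?_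
      rintro _ ⟨m, rfl⟩
      rw [Set.mem_singleton_iff]
      funext j
      have h1 := hnc (m : ℂ) ((0 : ℕ) : ℂ) j
      rw [hev, hev] at h1
      exact (e : F →+* ℂ).injective h1
  have h23 : CondIIPoly I I' → A1CurvesIn (ε.comp (algebraMap (𝓞 F₀) F₀)) I I' := by
    intro h
    rw [a1CurvesIn_iff]
    intro p hp
    let _ : Algebra F₀ ℂ := ε.toAlgebra
    obtain ⟨L, _, _, _, p', hp'⟩ := Cur.spec (k := F₀) (E := ℂ) (algebraMap (𝓞 F₀) F₀) hp
    have hchar : CharZero L := charZero_of_injective_algebraMap (algebraMap F₀ L).injective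
    have hfin : FiniteDimensional ℚ L := FiniteDimensional.trans ℚ F₀ L
    have hnf : NumberField L := ⟨⟩
    obtain ⟨S, x, hS, h1, h2, h3, h4, h5⟩ := exists_seq_aff (str F₀ L) hp'
    exact h5 (h L S hS x (fun m => ⟨fun j => h1 m j, h2 m, h3 m⟩) h4)
  refine ⟨?_, fun h => h31 (h23 ?_)⟩
  · tfae_have 1 → 3 := h13
    tfae_have 3 → 1 := h31
    tfae_have 3 → 2 := h32
    tfae_have 2 → 3 := h23
    tfae_finish
  · intro F _ _ _ S hS x hx _
    refine (h F S hS).subset ?_
    rintro _ ⟨m, rfl⟩
    exact hx m

end Pool.Agent.Results.MP_e97a4d_nt.LacunaryEquivalence
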