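import Mathlib
import Pool.Agent.TH710.NW.AffNF

/-!
MP_e97a4d_nt, Q1: entire curves and integral points on complements of hypersurfaces in affine
varieties, all given by nested sums of few high powers.
-/

set_option autoImplicit false

namespace Pool.Agent.Results.MP_e97a4d_nt.NestedPowerEquivalence

open MvPolynomial Pool.Agent.W235.RM Pool.Agent.TH710.NW
open Pool.Agent.H159R3.Exp (FinitelyManyIntegral)
open scoped NumberField

/-- Let `V` be the complement of the hypersurfaces `Q_j = 0` in the affine variety `F = 0`, in the
coordinates `x_1, …, x_n, u_1, …, u_l` with `Q_j (x) u_j = 1`, and let `V'` be the closed subset of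
`V` given by `G`; everything is defined over the ring of integers of a number field `K`. Suppose
that, by an embedding `σ`, the `F_i` and the `Q_j` are nested sums (of any depth) of few high powers
of polynomials of degree at most one, or nested sums of few high powers of monomials (after `E`-th
powers have been substituted for the variables that are among the `Q_j`). Then the following are
equivalent: every entire curve in `V_σ` lies in `V'_σ`; every nonconstant map from the
multiplicative group to `V_σ` lies in `V'_σ`; the points of `V` outside of `V'` over each number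
field, which are sparse in some base with digits of bounded size, are finite in number; every
sequence of `S`-integral points of `V`, whose coordinates are linear recurrence sequences, has only
finitely many different terms outside of `V'`. In particular `V_σ` and `V'_σ` satisfy the first
condition if `V` has only finitely many `S`-integral points outside of `V'` for all `S`, and if they
satisfy it with another embedding in the place of `σ`. -/
theorem result {K : Type} [Field K] [NumberField K] {ι κ : Type} [Finite ι] {n l : ℕ}
    (σ : K →+* ℂ) (F : ι → MvPolynomial (Fin n) (𝓞 K)) (Q : Fin l → MvPolynomial (Fin n) (𝓞 K))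
    (G : κ → MvPolynomial (Fin (n + l)) (𝓞 K))
    (hC : LinearNested (fun i => map (σ.comp (algebraMap (𝓞 K) K)) (F i))
        (fun j => map (σ.comp (algebraMap (𝓞 K) K)) (Q j)) ∨
      MonomialNested (fun i => map (σ.comp (algebraMap (𝓞 K) K)) (F i))
        (fun j => map (σ.comp (algebraMap (𝓞 K) K)) (Q j))) :
    List.TFAE [EntireCurvesIn σ (sys F Q) G, GmCurvesIn σ (sys F Q) G,
      SparseFiniteAll (sys F Q) G, RecurrenceFinite (sys F Q) G] ∧
    (FinitelyManyIntegral (sys F Q) G → EntireCurvesIn σ (sys F Q) G) ∧
    (∀ τ : K →+* ℂ, EntireCurvesIn τ (sys F Q) G → EntireCurvesIn σ (sys F Q) G) := by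
  have h21 : GmCurvesIn σ (sys F Q) G → EntireCurvesIn σ (sys F Q) G := entire_of_gm σ F Q G hC
  have h12 : ∀ τ : K →+* ℂ, EntireCurvesIn τ (sys F Q) G → SparseFiniteAll (sys F Q) G :=
    fun τ h => ((tfae τ (sys F Q) G).out 0 3).1 (exp_of_entire τ (sys F Q) G h)
  have h23 : GmCurvesIn σ (sys F Q) G ↔ SparseFiniteAll (sys F Q) G :=
    (tfae σ (sys F Q) G).out 1 3
  have h24 : GmCurvesIn σ (sys F Q) G ↔ RecurrenceFinite (sys F Q) G :=
    (tfae σ (sys F Q) G).out 1 5
  refine ⟨?_, fun h => h21 (h24.2 (rec_of_integral (sys F Q) G h)),
    fun τ h => h21 (h23.2 (h12 τ h))⟩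
  tfae_have 1 → 3 := h12 σ
  tfae_have 3 → 2 := h23.2
  tfae_have 2 → 4 := h24.1
  tfae_have 4 → 2 := h24.2
  tfae_have 2 → 1 := h21
  tfae_finish

end Pool.Agent.Results.MP_e97a4d_nt.NestedPowerEquivalence
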